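import Pool.Agent.Helper1.BinomD

set_option autoImplicit false

namespace Pool.Agent.Results.MP_9b2749_nt.PowerSumModPCube

/-- For all integers `m > 2` and `r` of different parities with `-m/2 ≤ r`, and every odd prime `p`
with `p ∤ m`, `r < p` and `p ≡ r (mod m)`, the sum of the `(-1)^(k m) choose (r/m) k ^ m` over
`0 ≤ k ≤ p - 1`, divided by `p^3`, has denominator prime to `p`, that is, the sum is congruent to
`0` modulo `p^3` in the localisation of the integers at `p`. -/
theorem result (m : ℕ) (r : ℤ) (p : ℕ) (hp : p.Prime) (hodd : Odd p) (hm : 2 < m)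
    (hpm : ¬ p ∣ m) (hpr : r < p) (hpar : Odd ((m : ℤ) + r)) (hcong : (p : ℤ) ≡ r [ZMOD m])
    (hr : -(m : ℚ) / 2 ≤ r) :
    ¬ p ∣ ((∑ k ∈ Finset.range p, (-1 : ℚ) ^ (k * m) * Ring.choose ((r : ℚ) / m) k ^ m)
      / (p : ℚ) ^ 3).den := by
  refine Pool.Agent.Helper1.Binom.main_rat m r p hp hodd hm hpm hpr hpar hcong ?_
  have h1 : (3 : ℚ) ≤ m := by exact_mod_cast hm
  have h2 : (1 : ℚ) < r + m := by linarith
  exact_mod_cast h2

end Pool.Agent.Results.MP_9b2749_nt.PowerSumModPCube
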